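import Pool.Agent.Helper42.Bub.Fin3

/-!
MP_138ac9_an, Q1, all dimensions `n = m + 1 ≥ 3`: there is a free-boundary `n`-harmonic bubble
on the half-space `ℝ^n_+` which is not conformal.

The definitions are in `Pool.Agent.Helper42.Bub.Defs`.

Idea of the proof. Minimize the conformally invariant energy `∫ |dω|^n` over all maps of the
half-space into `ℝ^n` with boundary values in the unit sphere which are equivariant under
(a) the rotations of one plane parallel to the boundary, acting on the target by the fourfold
rotation, and (b) an inversion composed with a reflection, which excludes constants and fixes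
the concentration of the minimizing sequence at the level of traces. The minimizer solves the full
Euler-Lagrange equation by symmetric criticality. If it were conformal, the equivariance would
give `|x'| |dω| / √n = 4 |ω'|`, where `'` is the projection to the plane, so that `ω'` vanishes
to fourth order along the axis of rotation, while a logarithmic test function and the equation
show that this is impossible.
-/

open Pool.Agent.Helper42.Bubble

namespace Pool.Agent.Results.MP_138ac9_an.NonConformalBubble

/-- For every `n = m + 1 ≥ 3` there is `d ≥ 2` and a bubble `v : ℝ^n_+ → ℝ^d` (with weak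
differential `D` and boundary values `τ`) which is not conformal. -/
theorem result (m : ℕ) (hm : 2 ≤ m) :
    ∃ d : ℕ, 2 ≤ d ∧
      ∃ (v : EuclideanSpace ℝ (Fin (m + 1)) → EuclideanSpace ℝ (Fin d))
        (D : EuclideanSpace ℝ (Fin (m + 1)) → Fin (m + 1) → EuclideanSpace ℝ (Fin d))
        (τ : EuclideanSpace ℝ (Fin m) → EuclideanSpace ℝ (Fin d)),
        IsBubble v D τ ∧ ¬ IsConformal D := by
  obtain ⟨v, D, τ, h⟩ := Pool.Agent.Helper42.Bub.main m hm
  exact ⟨m + 1, by omega, v, D, τ, h⟩

end Pool.Agent.Results.MP_138ac9_an.NonConformalBubble
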